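import Mathlib
import Pool.Agent.W699.PK.KA

set_option autoImplicit false

open MeasureTheory ProbabilityTheory Filter Topology

namespace Pool.Agent.Results.MP_91598f_pr.KProperty

open Pool.Agent.H443R3 Pool.Agent.W699.PK

/-- The unique invariant measure `π` of every ergodic probabilistic cellular automaton has the
K-property: every event `E` is asymptotically independent of the far away coordinates, uniformly;
the tail σ-algebra (outside of balls) is trivial; all shifts are K-automorphisms. -/
theorem result {d : ℕ} {S : Type} [Finite S] [TopologicalSpace S] [DiscreteTopology S]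
    [MeasurableSpace S] [MeasurableSingletonClass S] (Φ : PCA d S) (π : Measure (Config d S))
    (h : ErgodicWith Φ π) :
    -- uniform mixing (K-mixing)
    (∀ E : Set (Config d S), MeasurableSet E → ∀ ε : ℝ, 0 < ε → ∃ R : ℝ,
      ∀ F : Set (Config d S), MeasurableSet[outer 0 R] F →
        |(π (E ∩ F)).toReal - (π E).toReal * (π F).toReal| ≤ ε) ∧
    -- the tail is trivial
    (∀ F : Set (Config d S), MeasurableSet[⨅ R : ℝ, outer 0 R] F → π F = 0 ∨ π F = 1) ∧
    -- every shift `σ^v`, `v ≠ 0`, is a K-automorphism
    (∀ v : Site d, v ≠ 0 → IsKAut π (shift v) (shift (-v))) :=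
  ⟨fun _ hE _ hε => kmix h hE 0 hε, fun _ hF => tail_trivial h hF, fun v hv => kaut h v hv⟩

end Pool.Agent.Results.MP_91598f_pr.KProperty
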