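import Mathlib
import Pool.Agent.W699.PK.Phi

set_option autoImplicit false

open MeasureTheory ProbabilityTheory Filter Topology

namespace Pool.Agent.Results.MP_91598f_pr.PhiMixing

open Pool.Agent.H443R3 Pool.Agent.W699.PK

/-- The invariant measure of a uniformly ergodic probabilistic cellular automaton is φ-mixing for
each pattern, uniformly in its place and at the speed of the convergence of the automaton, and
probabilities of patterns at separated places are products up to a factor for each of them. -/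
theorem result {d : ℕ} {S : Type} [Finite S] [TopologicalSpace S] [DiscreteTopology S]
    [MeasurableSpace S] [MeasurableSingletonClass S] (Φ : PCA d S) (π : Measure (Config d S)) :
    -- (1) the φ-mixing coefficient at distance `2 t r` is at most the distance to `π` at time `t`
    (IsProbabilityMeasure π → Φ.evolve π = π → ∀ r : ℝ, 0 ≤ r → (∀ n ∈ Φ.nbhd, ‖n‖ ≤ r) →
      ∀ (t : ℕ) (A : Finset (Site d)) (E : Set (Config d S)),
        DependsOn (fun x => x ∈ E) (A : Set (Site d)) → ∀ δ : ℝ,
        (∀ x, |(Φ.evolve^[t] (Measure.dirac x) E).toReal - (π E).toReal| ≤ δ) →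
        ∀ (k : Site d) (R : ℝ), (∀ a ∈ A, ‖a - k‖ + 2 * t * r ≤ R) →
        ∀ F : Set (Config d S), MeasurableSet[outer k R] F →
          |(π (E ∩ F)).toReal - (π E).toReal * (π F).toReal| ≤ δ * (π F).toReal) ∧
    (UniformlyErgodicWith Φ π →
      -- (2) φ-mixing
      (∀ (B : Finset (Site d)) (u : B → S) (ε : ℝ), 0 < ε → ∃ R : ℝ,
        ∀ (v : Site d) (F : Set (Config d S)), MeasurableSet[outer v R] F →
          |(π (at_ B u v ∩ F)).toReal - (π (cyl B u)).toReal * (π F).toReal| ≤
            ε * (π F).toReal) ∧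
      -- (3) product estimates
      (∀ (B : Finset (Site d)) (ε : ℝ), 0 < ε → ∃ R : ℝ, ∀ V : Finset (Site d),
        (∀ v ∈ V, ∀ w ∈ V, v ≠ w → R < ‖v - w‖) → ∀ u : Site d → B → S,
          ∏ v ∈ V, max 0 ((π (cyl B (u v))).toReal - ε) ≤ (π (⋂ v ∈ V, at_ B (u v) v)).toReal ∧
          (π (⋂ v ∈ V, at_ B (u v) v)).toReal ≤ ∏ v ∈ V, ((π (cyl B (u v))).toReal + ε))) :=
  ⟨fun _ h _ hr0 hr t _ _ hE _ hδ _ _ hA _ hF => phi_le h hr0 hr t hE hδ hA hF,
    fun h => ⟨fun B u _ hε => phi_mix h B u hε, fun B _ hε => product h B hε⟩⟩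

end Pool.Agent.Results.MP_91598f_pr.PhiMixing
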